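import Pool.Agent.Helper52.MengerQ

set_option autoImplicit false

namespace Pool.Agent.Results.MP_8697c3_co.ErdosMengerFails

open Pool.Agent.Helper52.MengerQ

/-- There is a chain complete ordered set `P`, all of whose chains are countable, with a countable
cutset and an infinite family of pairwise disjoint maximal chains, such that for every family `F`
of pairwise disjoint maximal chains and every cutset `A` contained in the union of `F` some chain
of `F` contains two different elements of `A`. -/
theorem result : ∃ (P : Type) (_ : PartialOrder P),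
    (∀ c : Set P, IsChain (· ≤ ·) c → c.Nonempty →
      (∃ a : P, IsLUB c a) ∧ (∃ a : P, IsGLB c a)) ∧
    (∀ c : Set P, IsChain (· ≤ ·) c → c.Countable) ∧
    (∃ A : Set P, A.Countable ∧ ∀ C : Set P, IsMaxChain (· ≤ ·) C → (A ∩ C).Nonempty) ∧
    (∃ F : Set (Set P), F.Infinite ∧ (∀ C ∈ F, IsMaxChain (· ≤ ·) C) ∧
      F.PairwiseDisjoint id) ∧
    ∀ (F : Set (Set P)) (A : Set P), (∀ C ∈ F, IsMaxChain (· ≤ ·) C) →
      F.PairwiseDisjoint id →
      (∀ C : Set P, IsMaxChain (· ≤ ·) C → (A ∩ C).Nonempty) →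
      (∀ a ∈ A, ∃ C ∈ F, a ∈ C) →
      ∃ C ∈ F, ∃ a ∈ A, ∃ b ∈ A, a ≠ b ∧ a ∈ C ∧ b ∈ C := by
  refine ⟨Q, inferInstance, chain_complete, countable_chain, ⟨_, countable_cutset⟩,
    infinite_disjoint, ?_⟩
  intro F A hF hdisj hcut hA
  exact exists_two hF hdisj hcut hA

end Pool.Agent.Results.MP_8697c3_co.ErdosMengerFails
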